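import Mathlib

set_option autoImplicit false

namespace Pool.Agent.Results.MP_c1c042_nt.FiniteNotOnto

open Set

/-- The data of a generalized Collatz mapping: `d ≥ 2`, nonzero integers `m_0, …, m_{d-1}` and
integers `r_0, …, r_{d-1}` with `r_i ≡ i m_i (mod d)`. (The values of `m` and `r` at indices
`i ≥ d` are irrelevant.) -/
structure GenCollatz where
  d : ℕ
  two_le : 2 ≤ d
  m : ℕ → ℤ
  r : ℕ → ℤ
  m_ne : ∀ i < d, m i ≠ 0
  r_modEq : ∀ i < d, r i ≡ (i : ℤ) * m i [ZMOD (d : ℤ)]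

/-- The mapping `T(x) = (m_i x - r_i)/d` for `x ≡ i (mod d)`, `0 ≤ i < d`. -/
def GenCollatz.map (T : GenCollatz) (x : ℤ) : ℤ :=
  (T.m (x % (T.d : ℤ)).toNat * x - T.r (x % (T.d : ℤ)).toNat) / (T.d : ℤ)

/-- `T` is of relatively prime type: `gcd(m_0 ⋯ m_{d-1}, d) = 1`. -/
def GenCollatz.RelPrime (T : GenCollatz) : Prop :=
  Int.gcd (∏ i ∈ Finset.range T.d, T.m i) (T.d : ℤ) = 1

/-- The congruence class `B(j, m) = {x : x ≡ j (mod m)}`. -/
def B (j : ℤ) (m : ℕ) : Set ℤ := {x | x ≡ j [ZMOD (m : ℤ)]}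

/-- `S` is the disjoint union of the congruence classes `B(j, m)`, `j ∈ R ⊆ {0, …, m-1}`, and
`q = |R| / m`. -/
def HasMu (S : Set ℤ) (q : ℚ) : Prop :=
  ∃ (m : ℕ) (R : Finset ℕ), 0 < m ∧ (∀ j ∈ R, j < m) ∧ S = ⋃ j ∈ R, B (j : ℤ) m ∧
    q = (R.card : ℚ) / (m : ℚ)

open Classical in
/-- The finitely additive measure `μ` on finite unions of congruence classes
(and `0` on all other sets). -/
noncomputable def mu (S : Set ℤ) : ℚ := if h : ∃ q, HasMu S q then h.choose else 0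

/-- The transition matrix `Q_T(m)`. -/
noncomputable def Q (T : GenCollatz) (m : ℕ) : Matrix (Fin m) (Fin m) ℚ :=
  fun i j => mu (B ((i : ℕ) : ℤ) m ∩ T.map ⁻¹' B ((j : ℕ) : ℤ) m) / mu (B ((i : ℕ) : ℤ) m)

/-- `C` is a closed communicating class (positive recurrent class) of the finite Markov chain with
transition matrix `Q_T(m)`: it is nonempty and, for each `i ∈ C`, the set of the states reachable
from `i` is exactly `C`. -/
def IsClosedClass (T : GenCollatz) (m : ℕ) (C : Set (Fin m)) : Prop :=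
  C.Nonempty ∧ ∀ i ∈ C, ∀ j : Fin m, j ∈ C ↔ ∃ n : ℕ, 0 < (Q T m ^ n) i j

/-- The collection `E(T)` of the sets `S_C`, `C` a closed communicating class of `Q_T(m)`,
`m ≥ 2`. -/
def ergodicSets (T : GenCollatz) : Set (Set ℤ) :=
  {S | ∃ (m : ℕ) (C : Set (Fin m)), 2 ≤ m ∧ IsClosedClass T m C ∧
    S = ⋃ i ∈ C, B ((i : ℕ) : ℤ) m}

/-! ### General facts -/

theorem HasMu.pos_iff {S : Set ℤ} {q : ℚ} (h : HasMu S q) : 0 < q ↔ S.Nonempty := by
  obtain ⟨m, R, hm, hR, hS, hq⟩ := h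
  have hm' : (0 : ℚ) < m := by exact_mod_cast hm
  constructor
  · intro hpos
    rw [hq] at hpos
    have hc : R.card ≠ 0 := by
      rintro h0
      rw [h0] at hpos
      simp at hpos
    obtain ⟨j, hj⟩ := Finset.card_ne_zero.1 hc
    refine ⟨(j : ℤ), ?_⟩
    rw [hS]
    exact mem_biUnion hj (Int.ModEq.refl _)
  · rintro ⟨x, hx⟩
    rw [hS] at hx
    simp only [mem_iUnion] at hx
    obtain ⟨j, hj, _⟩ := hx
    have : 0 < R.card := Finset.card_pos.2 ⟨j, hj⟩
    rw [hq]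
    positivity

theorem HasMu.nonneg {S : Set ℤ} {q : ℚ} (h : HasMu S q) : 0 ≤ q := by
  obtain ⟨m, R, hm, hR, hS, hq⟩ := h
  rw [hq]; positivity

/-- Counting a union of `|R|` classes modulo `m` in `[0, m k)`. -/
theorem card_filter_range {S : Set ℤ} {m : ℕ} {R : Finset ℕ} (hR : ∀ j ∈ R, j < m)
    (hS : S = ⋃ j ∈ R, B (j : ℤ) m) [DecidablePred fun n : ℕ => (n : ℤ) ∈ S] (k : ℕ) :
    ((Finset.range (m * k)).filter (fun n : ℕ => (n : ℤ) ∈ S)).card = R.card * k := by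
  have hmem : ∀ n : ℕ, (n : ℤ) ∈ S ↔ n % m ∈ R := by
    intro n
    rw [hS]
    simp only [mem_iUnion]
    constructor
    · rintro ⟨j, hj, hn⟩
      have h1 : n ≡ j [MOD m] := Int.natCast_modEq_iff.1 hn
      have h2 : n % m = j % m := h1
      rw [h2, Nat.mod_eq_of_lt (hR j hj)]
      exact hj
    · intro h
      exact ⟨_, h, Int.natCast_modEq_iff.2 (Nat.mod_modEq n m).symm⟩
  have hper : ∀ n : ℕ, ((n + m : ℕ) : ℤ) ∈ S ↔ ((n : ℕ) : ℤ) ∈ S := by
    intro n
    rw [hmem, hmem, Nat.add_mod_right]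
  induction k with
  | zero => simp
  | succ k ih =>
    have hsplit : (Finset.range (m * (k + 1))).filter (fun n : ℕ => (n : ℤ) ∈ S) =
        ((Finset.range (m * k)).filter (fun n : ℕ => (n : ℤ) ∈ S)) ∪
        R.image (fun j => m * k + j) := by
      ext n
      simp only [Finset.mem_filter, Finset.mem_range, Finset.mem_union, Finset.mem_image]
      constructor
      · rintro ⟨h1, h2⟩
        by_cases h3 : n < m * k
        · exact Or.inl ⟨h3, h2⟩
        · right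
          have h4 : n = m * k + (n - m * k) := by omega
          have h5 : n - m * k < m := by
            have : m * (k + 1) = m * k + m := by ring
            omega
          refine ⟨n - m * k, ?_, h4.symm⟩
          have h6 := (hmem n).1 h2
          rw [h4, Nat.mul_add_mod, Nat.mod_eq_of_lt h5] at h6
          exact h6
      · rintro (⟨h1, h2⟩ | ⟨j, hj, rfl⟩)
        · exact ⟨lt_of_lt_of_le h1 (Nat.mul_le_mul_left _ (Nat.le_succ k)), h2⟩
        · refine ⟨?_, ?_⟩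
          · have := hR j hj
            have h7 : m * (k + 1) = m * k + m := by ring
            omega
          · rw [hmem, Nat.mul_add_mod, Nat.mod_eq_of_lt (hR j hj)]
            exact hj
    rw [hsplit, Finset.card_union_of_disjoint, ih, Finset.card_image_of_injective]
    · ring
    · intro a b hab
      exact Nat.add_left_cancel hab
    · rw [Finset.disjoint_left]
      intro n hn hn'
      rw [Finset.mem_filter, Finset.mem_range] at hn
      obtain ⟨j, _, rfl⟩ := Finset.mem_image.1 hn'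
      omega

/-- The value of `μ` is well defined. -/
theorem HasMu.unique {S : Set ℤ} {q q' : ℚ} (h : HasMu S q) (h' : HasMu S q') : q = q' := by
  classical
  obtain ⟨m, R, hm, hR, hS, hq⟩ := h
  obtain ⟨m', R', hm', hR', hS', hq'⟩ := h'
  have h1 := card_filter_range hR hS m'
  have h2 := card_filter_range hR' hS' m
  rw [mul_comm m' m, h1] at h2
  have h3 : (R.card : ℚ) * m' = R'.card * m := by exact_mod_cast h2
  have hm0 : (m : ℚ) ≠ 0 := by exact_mod_cast hm.ne'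
  have hm0' : (m' : ℚ) ≠ 0 := by exact_mod_cast hm'.ne'
  rw [hq, hq', div_eq_div_iff hm0 hm0', h3]

/-- `μ(S) = r/m` when `S` is a disjoint union of `r` classes modulo `m`. -/
theorem HasMu.mu_eq {S : Set ℤ} {q : ℚ} (h : HasMu S q) : mu S = q := by
  have h' : ∃ q, HasMu S q := ⟨q, h⟩
  unfold mu
  rw [dif_pos h']
  exact h'.choose_spec.unique h

theorem mu_nonneg (S : Set ℤ) : 0 ≤ mu S := by
  unfold mu
  split_ifs with h
  · exact h.choose_spec.nonneg
  · exact le_refl _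

/-- A periodic set is a finite union of congruence classes. -/
theorem exists_hasMu {S : Set ℤ} {N : ℕ} (hN : 0 < N) (hS : ∀ x y : ℤ, x ≡ y [ZMOD (N : ℤ)] → x ∈ S → y ∈ S) :
    ∃ q, HasMu S q := by
  classical
  refine ⟨_, N, (Finset.range N).filter (fun j => (j : ℤ) ∈ S), hN, ?_, ?_, rfl⟩
  · intro j hj
    exact Finset.mem_range.1 (Finset.mem_filter.1 hj).1
  · ext x
    simp only [mem_iUnion]
    constructor
    · intro hx
      have hN' : (0 : ℤ) < N := by exact_mod_cast hN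
      have h0 : 0 ≤ x % (N : ℤ) := Int.emod_nonneg _ hN'.ne'
      have h1 : x % (N : ℤ) < N := Int.emod_lt_of_pos _ hN'
      have h2 : (((x % (N : ℤ)).toNat : ℕ) : ℤ) = x % (N : ℤ) := Int.toNat_of_nonneg h0
      refine ⟨(x % (N : ℤ)).toNat, ?_, ?_⟩
      · rw [Finset.mem_filter, Finset.mem_range]
        refine ⟨by omega, ?_⟩
        rw [h2]
        exact hS x _ (Int.mod_modEq _ _).symm hx
      · show x ≡ _ [ZMOD _]
        rw [h2]
        exact (Int.mod_modEq _ _).symm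
    · rintro ⟨j, hj, hx⟩
      exact hS _ _ (Int.ModEq.symm hx) (Finset.mem_filter.1 hj).2

theorem mu_pos_iff {S : Set ℤ} {N : ℕ} (hN : 0 < N)
    (hS : ∀ x y : ℤ, x ≡ y [ZMOD (N : ℤ)] → x ∈ S → y ∈ S) : 0 < mu S ↔ S.Nonempty := by
  have h := exists_hasMu hN hS
  unfold mu
  rw [dif_pos h]
  exact h.choose_spec.pos_iff

theorem map_modEq (T : GenCollatz) (m : ℕ) {x y : ℤ} (h : x ≡ y [ZMOD ((T.d * m : ℕ) : ℤ)]) :
    T.map x ≡ T.map y [ZMOD (m : ℤ)] := by
  have hd : (0 : ℤ) < T.d := by have := T.two_le; omega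
  have hxy : x % (T.d : ℤ) = y % (T.d : ℤ) := by
    apply h.of_dvd
    push_cast
    exact dvd_mul_right _ _
  obtain ⟨k, hk⟩ := h.dvd
  have hy : y = x + (T.d : ℤ) * (m * k) := by push_cast at hk; linarith
  unfold GenCollatz.map
  rw [← hxy]
  set i := (x % (T.d : ℤ)).toNat with hi
  have e1 : T.m i * y - T.r i = (T.m i * x - T.r i) + (T.d : ℤ) * (m * (k * T.m i)) := by
    rw [hy]; ring
  rw [e1, Int.add_mul_ediv_left _ _ hd.ne']
  rw [Int.modEq_iff_dvd]
  exact ⟨k * T.m i, by ring⟩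

theorem Q_nonneg (T : GenCollatz) (m : ℕ) (i j : Fin m) : 0 ≤ Q T m i j :=
  div_nonneg (mu_nonneg _) (mu_nonneg _)

theorem Q_pos_iff (T : GenCollatz) (m : ℕ) (i j : Fin m) :
    0 < Q T m i j ↔ ∃ x : ℤ, x ≡ ((i : ℕ) : ℤ) [ZMOD (m : ℤ)] ∧
      T.map x ≡ ((j : ℕ) : ℤ) [ZMOD (m : ℤ)] := by
  have hm : 0 < m := lt_of_le_of_lt (Nat.zero_le _) i.2
  have h1 : 0 < mu (B ((i : ℕ) : ℤ) m) := by
    rw [mu_pos_iff hm]
    · exact ⟨_, Int.ModEq.refl _⟩
    · intro x y hxy hx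
      exact hxy.symm.trans hx
  have h2 : 0 < mu (B ((i : ℕ) : ℤ) m ∩ T.map ⁻¹' B ((j : ℕ) : ℤ) m) ↔
      (B ((i : ℕ) : ℤ) m ∩ T.map ⁻¹' B ((j : ℕ) : ℤ) m).Nonempty := by
    apply mu_pos_iff (N := T.d * m) (by have := T.two_le; positivity)
    intro x y hxy hx
    refine ⟨?_, ?_⟩
    · have : x ≡ y [ZMOD (m : ℤ)] := by
        apply hxy.of_dvd
        push_cast
        exact dvd_mul_left _ _
      exact this.symm.trans hx.1
    · exact (map_modEq T m hxy).symm.trans hx.2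
  unfold Q
  constructor
  · intro h
    have h3 : 0 < mu (B ((i : ℕ) : ℤ) m ∩ T.map ⁻¹' B ((j : ℕ) : ℤ) m) := by
      by_contra hcon
      have : mu (B ((i : ℕ) : ℤ) m ∩ T.map ⁻¹' B ((j : ℕ) : ℤ) m) = 0 :=
        le_antisymm (not_lt.1 hcon) (mu_nonneg _)
      rw [this, zero_div] at h
      exact lt_irrefl _ h
    obtain ⟨x, hx⟩ := h2.1 h3
    exact ⟨x, hx.1, hx.2⟩
  · rintro ⟨x, hx1, hx2⟩
    exact div_pos (h2.2 ⟨x, hx1, hx2⟩) h1

theorem Qpow_nonneg (T : GenCollatz) (m n : ℕ) (i j : Fin m) : 0 ≤ (Q T m ^ n) i j := by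
  induction n generalizing j with
  | zero =>
    rw [pow_zero, Matrix.one_apply]
    split_ifs <;> norm_num
  | succ n ih =>
    rw [pow_succ, Matrix.mul_apply]
    exact Finset.sum_nonneg (fun k _ => mul_nonneg (ih k) (Q_nonneg T m k j))

theorem Qpow_succ_pos (T : GenCollatz) (m n : ℕ) (i j : Fin m) :
    0 < (Q T m ^ (n + 1)) i j ↔ ∃ k, 0 < (Q T m ^ n) i k ∧ 0 < Q T m k j := by
  rw [pow_succ, Matrix.mul_apply]
  constructor
  · intro h
    by_contra hcon
    push Not at hcon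
    have : ∑ k, (Q T m ^ n) i k * Q T m k j = 0 := by
      apply Finset.sum_eq_zero
      intro k _
      rcases (Qpow_nonneg T m n i k).lt_or_eq with h1 | h1
      · have h2 : Q T m k j = 0 := le_antisymm (hcon k h1) (Q_nonneg T m k j)
        rw [h2, mul_zero]
      · rw [← h1, zero_mul]
    rw [this] at h
    exact lt_irrefl _ h
  · rintro ⟨k, h1, h2⟩
    exact Finset.sum_pos' (fun l _ => mul_nonneg (Qpow_nonneg T m n i l) (Q_nonneg T m l j))
      ⟨k, Finset.mem_univ _, mul_pos h1 h2⟩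

/-- the residue of an integer, as a state of the chain -/
def res (m : ℕ) (hm : 0 < m) (x : ℤ) : Fin m :=
  ⟨(x % (m : ℤ)).toNat, by
    have hm' : (0 : ℤ) < m := by exact_mod_cast hm
    have h0 : 0 ≤ x % (m : ℤ) := Int.emod_nonneg _ hm'.ne'
    have h1 : x % (m : ℤ) < m := Int.emod_lt_of_pos _ hm'
    omega⟩

theorem res_modEq (m : ℕ) (hm : 0 < m) (x : ℤ) : ((res m hm x : ℕ) : ℤ) ≡ x [ZMOD (m : ℤ)] := by
  have hm' : (0 : ℤ) < m := by exact_mod_cast hm
  have h0 : 0 ≤ x % (m : ℤ) := Int.emod_nonneg _ hm'.ne'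
  have : ((res m hm x : ℕ) : ℤ) = x % (m : ℤ) := Int.toNat_of_nonneg h0
  rw [this]
  exact Int.mod_modEq _ _

theorem eq_of_modEq {m : ℕ} {i j : Fin m} (h : ((i : ℕ) : ℤ) ≡ ((j : ℕ) : ℤ) [ZMOD (m : ℤ)]) : i = j := by
  have h' : (i : ℕ) ≡ (j : ℕ) [MOD m] := by exact_mod_cast (Int.natCast_modEq_iff.1 h)
  exact Fin.ext (Nat.ModEq.eq_of_lt_of_lt h' i.2 j.2)

theorem res_eq (m : ℕ) (hm : 0 < m) (x : ℤ) (i : Fin m) (h : x ≡ ((i : ℕ) : ℤ) [ZMOD (m : ℤ)]) :
    res m hm x = i :=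
  eq_of_modEq ((res_modEq m hm x).trans h)

/-- Orbits of integers give paths of the chain. -/
theorem reach_iterate (T : GenCollatz) (m : ℕ) (hm : 0 < m) (x : ℤ) (n : ℕ) :
    0 < (Q T m ^ n) (res m hm x) (res m hm (T.map^[n] x)) := by
  induction n with
  | zero => simp
  | succ n ih =>
    rw [Qpow_succ_pos]
    refine ⟨_, ih, ?_⟩
    rw [Q_pos_iff]
    refine ⟨T.map^[n] x, (res_modEq m hm _).symm, ?_⟩
    rw [Function.iterate_succ_apply']
    exact (res_modEq m hm _).symm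

/-! ### The counterexample `T(x) = 2⌊x/3⌋` -/

/-- `d = 3`, `m_i = 2`, `r_i = 2 i`. -/
def T₀ : GenCollatz where
  d := 3
  two_le := by norm_num
  m := fun _ => 2
  r := fun i => 2 * (i : ℤ)
  m_ne := fun _ _ => by norm_num
  r_modEq := fun i _ => by rw [mul_comm]

theorem T₀_map (x : ℤ) : T₀.map x = 2 * (x / 3) := by
  show (2 * x - 2 * (((x % ((3 : ℕ) : ℤ)).toNat : ℕ) : ℤ)) / ((3 : ℕ) : ℤ) = 2 * (x / 3)
  push_cast
  omega

theorem T₀_relPrime : T₀.RelPrime := by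
  show Int.gcd (∏ i ∈ Finset.range 3, (2 : ℤ)) ((3 : ℕ) : ℤ) = 1
  simp only [Finset.prod_const, Finset.card_range]
  decide

theorem T₀_not_onto : Set.range T₀.map ≠ Set.univ := by
  intro h
  have : (1 : ℤ) ∈ Set.range T₀.map := by rw [h]; trivial
  obtain ⟨x, hx⟩ := this
  rw [T₀_map] at hx
  omega

/-- the auxiliary map `y ↦ ⌊2y/3⌋` -/
def S (y : ℤ) : ℤ := (2 * y) / 3

theorem T₀_two_mul (y : ℤ) : T₀.map (2 * y) = 2 * S y := by
  rw [T₀_map]; rfl

theorem T₀_iter (y : ℤ) (n : ℕ) : T₀.map^[n] (2 * y) = 2 * S^[n] y := by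
  induction n with
  | zero => rfl
  | succ n ih => rw [Function.iterate_succ_apply', ih, T₀_two_mul, Function.iterate_succ_apply']

theorem S_iter_pow (v : ℕ) (q : ℤ) : S^[v] (3 ^ v * q - 1) = 2 ^ v * q - 1 := by
  induction v generalizing q with
  | zero => simp
  | succ v ih =>
    rw [Function.iterate_succ_apply]
    have : S (3 ^ (v + 1) * q - 1) = 3 ^ v * (2 * q) - 1 := by
      have e : (3 : ℤ) ^ (v + 1) * q - 1 = 3 * (3 ^ v * q) - 1 := by ring
      have e2 : (3 : ℤ) ^ v * (2 * q) - 1 = 2 * (3 ^ v * q) - 1 := by ring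
      unfold S
      rw [e, e2]
      omega
    rw [this, ih]
    ring

/-- For `w ≥ 0` the set of solutions of `S^n(y) = w` contains arbitrarily long intervals. -/
theorem long_interval (w : ℤ) (hw : 0 ≤ w) (N : ℕ) :
    ∃ (n : ℕ) (a : ℤ), ∀ j : ℤ, 0 ≤ j → j < N + 2 → S^[n] (a + j) = w := by
  induction N with
  | zero =>
    obtain ⟨w', rfl⟩ := Int.eq_ofNat_of_zero_le hw
    obtain ⟨v, q, hq, hvq⟩ := Nat.exists_eq_two_pow_mul_odd (n := w' + 1) (by omega)
    obtain ⟨t, ht⟩ := hq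
    -- `3 ^ v * q - 1` is even, with two preimages
    have hodd : Odd ((3 : ℤ) ^ v * (q : ℤ)) := by
      apply Odd.mul
      · exact Odd.pow (by decide)
      · rw [ht]; exact ⟨t, by push_cast; ring⟩
    obtain ⟨s, hs⟩ := hodd
    refine ⟨v + 1, 3 * s, ?_⟩
    intro j hj0 hj1
    rw [Function.iterate_succ_apply]
    have hS : S (3 * s + j) = 3 ^ v * (q : ℤ) - 1 := by
      unfold S; rw [hs]
      push_cast at hj1
      omega
    rw [hS, S_iter_pow]
    have : ((w' : ℤ) + 1) = 2 ^ v * (q : ℤ) := by exact_mod_cast hvq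
    have h2 : (w' : ℤ) = 2 ^ v * (q : ℤ) - 1 := by linarith
    exact h2.symm
  | succ N ih =>
    obtain ⟨n, a, h⟩ := ih
    refine ⟨n + 1, (3 * a + 1) / 2, ?_⟩
    intro j hj0 hj1
    rw [Function.iterate_succ_apply]
    have hS : S ((3 * a + 1) / 2 + j) = a + (S ((3 * a + 1) / 2 + j) - a) := by ring
    rw [hS]
    apply h
    · unfold S; omega
    · unfold S; push_cast at hj1 ⊢; omega

/-- From every state one can reach the class of every even integer. -/
theorem reach_even (m : ℕ) (hm : 0 < m) (i : Fin m) (z : ℤ) :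
    ∃ n : ℕ, 0 < (Q T₀ m ^ n) i (res m hm (2 * z)) := by
  have hm' : (0 : ℤ) < m := by exact_mod_cast hm
  -- a nonnegative representative
  obtain ⟨w, hw0, hwz⟩ : ∃ w : ℤ, 0 ≤ w ∧ w ≡ z [ZMOD (m : ℤ)] :=
    ⟨z % m, Int.emod_nonneg _ hm'.ne', Int.mod_modEq _ _⟩
  obtain ⟨n, a, ha⟩ := long_interval w hw0 m
  -- `x ≡ i` with `x / 3 ∈ [a, a + m)`
  obtain ⟨x, hx, hxa, hxb⟩ : ∃ x : ℤ, x ≡ ((i : ℕ) : ℤ) [ZMOD (m : ℤ)] ∧ 3 * a ≤ x ∧ x < 3 * a + m := by
    refine ⟨3 * a + (((i : ℕ) : ℤ) - 3 * a) % m, ?_, ?_, ?_⟩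
    · have := (Int.mod_modEq (((i : ℕ) : ℤ) - 3 * a) (m : ℤ)).add_left (3 * a)
      simpa using this
    · have := Int.emod_nonneg (((i : ℕ) : ℤ) - 3 * a) hm'.ne'
      linarith
    · have := Int.emod_lt_of_pos (((i : ℕ) : ℤ) - 3 * a) hm'
      linarith
  have hy : S^[n] (x / 3) = w := by
    have := ha (x / 3 - a) (by omega) (by omega)
    rwa [add_sub_cancel] at this
  have hit : T₀.map^[n + 1] x = 2 * w := by
    rw [Function.iterate_succ_apply, T₀_map, T₀_iter, hy]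
  have hr := reach_iterate T₀ m hm x (n + 1)
  rw [hit, res_eq m hm x i hx] at hr
  have he : res m hm (2 * w) = res m hm (2 * z) := by
    apply eq_of_modEq
    exact (res_modEq m hm _).trans ((hwz.mul_left 2).trans (res_modEq m hm _).symm)
  rw [he] at hr
  exact ⟨n + 1, hr⟩

/-- If `m` is even, only even classes are reachable from even classes. -/
theorem even_closed (m : ℕ) (hm2 : (2 : ℤ) ∣ m) (i : Fin m) (hi : (2 : ℤ) ∣ ((i : ℕ) : ℤ)) (n : ℕ)
    (j : Fin m) (h : 0 < (Q T₀ m ^ n) i j) : (2 : ℤ) ∣ ((j : ℕ) : ℤ) := by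
  induction n generalizing j with
  | zero =>
    rw [pow_zero, Matrix.one_apply] at h
    split_ifs at h with hij
    · rw [← hij]; exact hi
    · exact absurd h (lt_irrefl _)
  | succ n ih =>
    rw [Qpow_succ_pos] at h
    obtain ⟨k, _, hk⟩ := h
    rw [Q_pos_iff] at hk
    obtain ⟨x, _, hx⟩ := hk
    rw [T₀_map] at hx
    have := (hx.of_dvd hm2)
    have h3 := this.dvd
    omega

theorem ergodicSets_subset : ergodicSets T₀ ⊆ {Set.univ, {x : ℤ | (2 : ℤ) ∣ x}} := by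
  rintro A ⟨m, C, hm, ⟨⟨i₀, hi₀⟩, hC⟩, rfl⟩
  have hm0 : 0 < m := by omega
  have hev : ∀ z : ℤ, res m hm0 (2 * z) ∈ C := by
    intro z
    rw [hC i₀ hi₀]
    exact reach_even m hm0 i₀ z
  by_cases hpar : (2 : ℤ) ∣ m
  · right
    rw [Set.mem_singleton_iff]
    ext x
    simp only [mem_iUnion, mem_ofPred_eq]
    constructor
    · rintro ⟨j, hj, hx⟩
      have h0 : (0 : ℤ) ≡ ((res m hm0 (2 * 0) : ℕ) : ℤ) [ZMOD (m : ℤ)] := by
        have := (res_modEq m hm0 (2 * 0)).symm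
        simpa using this
      have h1 : (2 : ℤ) ∣ ((res m hm0 (2 * 0) : ℕ) : ℤ) := by
        have := (h0.of_dvd hpar).dvd
        omega
      obtain ⟨n, hn⟩ := (hC _ (hev 0) j).1 hj
      have h2 := even_closed m hpar _ h1 n j hn
      have h3 := (Int.ModEq.of_dvd hpar (show x ≡ ((j : ℕ) : ℤ) [ZMOD (m : ℤ)] from hx)).dvd
      omega
    · rintro ⟨z, rfl⟩
      exact ⟨_, hev z, (res_modEq m hm0 _).symm⟩
  · left
    rw [Set.eq_univ_iff_forall]
    intro x
    simp only [mem_iUnion]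
    -- `x ≡ 2 z`
    rcases Int.even_or_odd' x with ⟨k, hk | hk⟩
    · exact ⟨_, hev k, by rw [hk]; exact (res_modEq m hm0 _).symm⟩
    · obtain ⟨l, hl⟩ : ∃ l : ℤ, (m : ℤ) = 2 * l + 1 := ⟨(m : ℤ) / 2, by omega⟩
      refine ⟨_, hev (k + l + 1), ?_⟩
      have h1 : x ≡ 2 * (k + l + 1) [ZMOD (m : ℤ)] := by
        rw [Int.modEq_iff_dvd]
        exact ⟨1, by rw [hk, hl]; ring⟩
      exact h1.trans (res_modEq m hm0 _).symm

/-- There is a generalized Collatz mapping `T` of relatively prime type, namely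
`T(x) = 2⌊x/3⌋`, with `T(ℤ) ≠ ℤ` and `E(T)` finite. -/
theorem result : ∃ T : GenCollatz, (∀ x : ℤ, T.map x = 2 * (x / 3)) ∧ T.RelPrime ∧
    Set.range T.map ≠ Set.univ ∧ (ergodicSets T).Finite :=
  ⟨T₀, T₀_map, T₀_relPrime, T₀_not_onto,
    Set.Finite.subset (Set.toFinite _) ergodicSets_subset⟩

end Pool.Agent.Results.MP_c1c042_nt.FiniteNotOnto
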